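import Mathlib
import Pool.Agent.R881.Heis

/-!
MP_9d0418_gt, Q1 and Q2 (negative answers): a group with finite double centralizers which is not
`σ`-discrete in its semi-Zariski topology.
-/

open Pool.Agent.R881.SemiZariski

namespace Pool.Agent.Results.MP_9d0418_gt.HeisenbergNotSigma

/-- **Q1 and Q2 of MP_9d0418_gt, negated form.** There is a group with finite double centralizers
which is not a countable union of discrete subspaces of its semi-Zariski topology. -/
theorem result : ∃ (G : Type) (_ : Group G), FiniteDoubleCentralizers G ∧
    ¬ SigmaDiscrete (semiZariski G) (Set.univ : Set G) :=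
  ⟨Pool.Agent.R881.Heis.G, inferInstance, Pool.Agent.R881.Heis.fdc,
    Pool.Agent.R881.Heis.not_sigmaDiscrete⟩

end Pool.Agent.Results.MP_9d0418_gt.HeisenbergNotSigma
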